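import Mathlib
import Pool.Agent.H286R4.LefDefs
import Pool.Agent.H286R4.LefMain

/-!
# Effective cones of curves on very general ample hypersurfaces: a counterexample

The fourfold `Y` is the projective bundle over `ℙ^1` whose small contraction shrinks exactly one
curve `C ≅ ℙ^1` to a point. An ample divisor `X` that does not contain `C` contains no curve that
is contracted, so a divisor class that is negative on `C` is nonnegative on all curves in `X`.
-/

namespace Pool.Agent.Results.MP_f4858a_ag.EffConeFails

open Pool.Agent.H286R4

/-- Negative answer to Q1 of MP_f4858a_ag. There is a smooth projective variety `Y` of dimension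
four, embedded in a projective space with hyperplane class `A`, such that for every `d ≥ 1` and a
very general member `X` of `|dA|` the push-forward `i_* : N_1(X) → N_1(Y)` does not induce an
isomorphism of effective cones in dimension one. More precisely, `Y` contains a curve `C` such that
`i_*(Eff_1(X)) ≠ Eff_1(Y)` for every closed subset `X` of `Y` that does not contain `C`. -/
theorem result : ∃ (σ : Type) (_ : Fintype σ) (Y : Set (PS σ)) (hY : IsVariety Y),
    HasDim Y 4 ∧ IsSmoothDim Y 4 ∧
    (∀ d : ℕ, 1 ≤ d → VeryGeneral hY.1 d fun _ hX hXY => ¬ InducesIso hX hXY) ∧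
    ∃ C : Set (PS σ), IsCurve C ∧ C ⊆ Y ∧
      ∀ (X : Set (PS σ)) (hX : IsZClosed X) (hXY : X ⊆ Y), ¬ C ⊆ X →
        push hX hXY '' Eff1 X ≠ Eff1 Y :=
  main_thm

end Pool.Agent.Results.MP_f4858a_ag.EffConeFails
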